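import Mathlib

/-!
Small sets, pigeonhole arguments on words, powers of words and conjugate words, and the
syntactic congruence of a language.
-/

namespace Pool.Agent.CConj

variable {σ τ α : Type*}

/-- `T` has at most `N` elements. -/
def Small (T : Set σ) (N : ℕ) : Prop := ∃ F : Finset σ, T ⊆ ↑F ∧ F.card ≤ N

theorem Small.mono {T T' : Set σ} {N N' : ℕ} (h : Small T N) (hT : T' ⊆ T) (hN : N ≤ N') :
    Small T' N' := by
  obtain ⟨F, h1, h2⟩ := h
  exact ⟨F, hT.trans h1, h2.trans hN⟩

theorem Small.prod {T : Set σ} {T' : Set τ} {N N' : ℕ} (h : Small T N) (h' : Small T' N') :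
    Small (T ×ˢ T') (N * N') := by
  obtain ⟨F, h1, h2⟩ := h
  obtain ⟨F', h1', h2'⟩ := h'
  refine ⟨F ×ˢ F', ?_, ?_⟩
  · rintro ⟨a, b⟩ ⟨ha, hb⟩
    simpa using ⟨h1 ha, h1' hb⟩
  · rw [Finset.card_product]
    exact Nat.mul_le_mul h2 h2'

/-- A set whose elements are determined by a code in a small set is small. -/
theorem Small.of_code {T : Set σ} {T' : Set τ} {N : ℕ} (h : Small T' N) (r : σ → τ → Prop)
    (h₁ : ∀ s ∈ T, ∃ t ∈ T', r s t)
    (h₂ : ∀ s ∈ T, ∀ s' ∈ T, ∀ t, r s t → r s' t → s = s') : Small T N := by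
  classical
  obtain ⟨F, hF, hN⟩ := h
  rcases T.eq_empty_or_nonempty with rfl | ⟨s₀, hs₀⟩
  · exact ⟨∅, by simp, by simp⟩
  · refine ⟨F.image (fun t => if h : ∃ s ∈ T, r s t then Classical.choose h else s₀), ?_,
      Finset.card_image_le.trans hN⟩
    intro s hs
    obtain ⟨t, ht, hr⟩ := h₁ s hs
    simp only [Finset.coe_image, Set.mem_image, Finset.mem_coe]
    refine ⟨t, by simpa using hF ht, ?_⟩
    have hex : ∃ s ∈ T, r s t := ⟨s, hs, hr⟩
    rw [dif_pos hex]
    obtain ⟨h3, h4⟩ := Classical.choose_spec hex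
    exact h₂ _ h3 _ hs _ h4 hr

theorem Small.of_map {T : Set σ} {T' : Set τ} {N : ℕ} (h : Small T' N) (f : σ → τ)
    (h₁ : ∀ s ∈ T, f s ∈ T') (h₂ : ∀ s ∈ T, ∀ s' ∈ T, f s = f s' → s = s') : Small T N :=
  h.of_code (fun s t => f s = t) (fun s hs => ⟨f s, h₁ s hs, rfl⟩)
    (fun s hs s' hs' t ht ht' => h₂ s hs s' hs' (ht.trans ht'.symm))

theorem Small.powerset {T : Set σ} {N : ℕ} (h : Small T N) :
    Small {s : Set σ | s ⊆ T} (2 ^ N) := by
  classical
  obtain ⟨F, hF, hN⟩ := h
  have h0 : Small {s : Finset σ | s ⊆ F} (2 ^ N) := by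
    refine ⟨F.powerset, ?_, ?_⟩
    · intro s hs
      simpa using hs
    · rw [Finset.card_powerset]
      exact Nat.pow_le_pow_right (by norm_num) hN
  refine h0.of_code (fun s t => s = ↑t) ?_ ?_
  · intro s hs
    have hs' : s ⊆ ↑F := hs.trans hF
    refine ⟨(F.finite_toSet.subset hs').toFinset, ?_, by simp⟩
    intro x hx
    simp only [Set.Finite.mem_toFinset] at hx
    simpa using hs' hx
  · rintro s - s' - t h h'
    exact h.trans h'.symm

theorem Small.option {T : Set σ} {N : ℕ} (h : Small T N) :
    Small {o : Option σ | ∀ x ∈ o, x ∈ T} (N + 1) := by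
  classical
  obtain ⟨F, hF, hN⟩ := h
  refine ⟨insert none (F.image some), ?_, ?_⟩
  · intro o ho
    cases o with
    | none => simp
    | some x => simpa using hF (ho x rfl)
  · refine (Finset.card_insert_le _ _).trans ?_
    have := Finset.card_image_le (s := F) (f := some)
    omega

theorem small_univ [Fintype σ] : Small (Set.univ : Set σ) (Fintype.card σ) :=
  ⟨Finset.univ, by simp, by simp⟩

theorem small_words [Fintype α] (n : ℕ) :
    Small {w : List α | w.length ≤ n} ((Fintype.card α + 1) ^ n) := by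
  classical
  have h0 : Small (Set.univ : Set (Fin n → Option α)) ((Fintype.card α + 1) ^ n) := by
    have := small_univ (σ := Fin n → Option α)
    simpa using this
  refine h0.of_map (fun w i => w[(i : ℕ)]?) (fun _ _ => trivial) ?_
  intro w hw w' hw' h
  refine List.ext_getElem? ?_
  intro i
  by_cases hi : i < n
  · exact congrFun h ⟨i, hi⟩
  · simp only [Set.mem_setOf_eq] at hw hw'
    rw [List.getElem?_eq_none (by omega), List.getElem?_eq_none (by omega)]

theorem pigeon {T : Set σ} {N : ℕ} (hT : Small T N) (f : ℕ → σ) {n : ℕ} (hn : N ≤ n)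
    (hf : ∀ i ≤ n, f i ∈ T) : ∃ i j, i < j ∧ j ≤ n ∧ f i = f j := by
  classical
  obtain ⟨F, hF, hN⟩ := hT
  have h1 : F.card < (Finset.range (n + 1)).card := by
    rw [Finset.card_range]; omega
  have h2 : ∀ i ∈ Finset.range (n + 1), f i ∈ F := by
    intro i hi
    have := hF (hf i (by simpa [Nat.lt_succ_iff] using hi))
    simpa using this
  obtain ⟨i, hi, j, hj, hij, h⟩ := Finset.exists_ne_map_eq_of_card_lt_of_maps_to h1 h2
  simp only [Finset.mem_range] at hi hj
  rcases lt_or_gt_of_ne hij with hlt | hlt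
  · exact ⟨i, j, hlt, by omega, h⟩
  · exact ⟨j, i, hlt, by omega, h.symm⟩

/-- A long word has two cut positions in the same state. -/
theorem exists_cut {T : Set σ} {N : ℕ} (hT : Small T N) (st : List α → List α → σ) {w : List α}
    (hw : N ≤ w.length) (h : ∀ p q, w = p ++ q → st p q ∈ T) :
    ∃ p q r, w = p ++ q ++ r ∧ q ≠ [] ∧ st p (q ++ r) = st (p ++ q) r := by
  obtain ⟨i, j, hij, hj, he⟩ := pigeon hT (fun i => st (w.take i) (w.drop i)) hw
    (fun i _ => h _ _ (List.take_append_drop i w).symm)
  have h1 : w.take j = w.take i ++ (w.drop i).take (j - i) := by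
    have := List.take_add (l := w) (i := i) (j := j - i)
    rwa [Nat.add_sub_cancel' hij.le] at this
  have h2 : w.drop i = (w.drop i).take (j - i) ++ w.drop j := by
    conv_lhs => rw [← List.take_append_drop (j - i) (w.drop i), List.drop_drop,
      Nat.add_sub_cancel' hij.le]
  refine ⟨w.take i, (w.drop i).take (j - i), w.drop j, ?_, ?_, ?_⟩
  · rw [← h1, List.take_append_drop]
  · intro h0
    have := congrArg List.length h0
    simp only [List.length_take, List.length_drop, List.length_nil] at this
    omega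
  · rw [← h1, ← h2]; exact he

theorem descent (P : List α → Prop) (N : ℕ)
    (h : ∀ w, P w → N ≤ w.length → ∃ w', P w' ∧ w'.length < w.length) {w : List α} (hw : P w) :
    ∃ w', P w' ∧ w'.length < N := by
  induction hn : w.length using Nat.strong_induction_on generalizing w with
  | _ n ih =>
    by_cases hN : N ≤ w.length
    · obtain ⟨w', h1, h2⟩ := h w hw hN
      exact ih w'.length (hn ▸ h2) h1 rfl
    · exact ⟨w, hw, by omega⟩

/-- Cutting a word while preserving a right congruence and a left congruence. -/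
theorem cut_word {A B : Type*} {T : Set (A × B)} {N : ℕ} (hT : Small T N)
    (F : List α → A) (G : List α → B)
    (hF : ∀ r r' s, F r = F r' → F (r ++ s) = F (r' ++ s))
    (hG : ∀ t t' s, G t = G t' → G (s ++ t) = G (s ++ t')) {y : List α}
    (hy : ∀ r t, y = r ++ t → (F r, G t) ∈ T) :
    ∃ y', F y' = F y ∧ G y' = G y ∧ y'.length < N := by
  have key : ∀ w, (F w = F y ∧ G w = G y ∧ ∀ r t, w = r ++ t → (F r, G t) ∈ T) →
      N ≤ w.length → ∃ w', (F w' = F y ∧ G w' = G y ∧ ∀ r t, w' = r ++ t → (F r, G t) ∈ T) ∧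
        w'.length < w.length := by
    rintro w ⟨h1, h2, h3⟩ hN
    obtain ⟨p, q, r, rfl, hq, he⟩ := exists_cut hT (fun p q => (F p, G q)) hN h3
    simp only [Prod.mk.injEq] at he
    have hF' : F (p ++ r) = F (p ++ q ++ r) := hF _ _ _ he.1
    have hG' : G (p ++ r) = G (p ++ (q ++ r)) := (hG _ _ _ he.2).symm
    refine ⟨p ++ r, ⟨hF'.trans h1, by rw [hG', ← List.append_assoc]; exact h2, ?_⟩, ?_⟩
    · intro s t hst
      rcases List.append_eq_append_iff.1 hst with ⟨u, rfl, rfl⟩ | ⟨u, rfl, rfl⟩
      · -- `s = p ++ u`, `r = u ++ t`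
        have : F (p ++ u) = F (p ++ q ++ u) := hF _ _ _ he.1
        rw [this]
        exact h3 _ _ (by simp)
      · -- `p = s ++ u`, `t = u ++ r`
        have : G (u ++ r) = G (u ++ (q ++ r)) := (hG _ _ _ he.2).symm
        rw [this]
        exact h3 _ _ (by simp)
    · have : 0 < q.length := List.length_pos_iff.2 hq
      simp only [List.length_append]
      omega
  obtain ⟨y', ⟨h1, h2, h3⟩, h4⟩ := descent _ N key (w := y) ⟨rfl, rfl, hy⟩
  exact ⟨y', h1, h2, h4⟩

/-- Powers of words. -/
def pw (u : List α) : ℕ → List α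
  | 0 => []
  | n + 1 => u ++ pw u n

theorem pw_add (u : List α) (m n : ℕ) : pw u (m + n) = pw u m ++ pw u n := by
  induction m with
  | zero => simp [pw]
  | succ m ih => rw [Nat.succ_add]; simp [pw, ih]

theorem pw_succ' (u : List α) (n : ℕ) : pw u (n + 1) = pw u n ++ u := by
  rw [pw_add]; simp [pw]

theorem length_pw (u : List α) (n : ℕ) : (pw u n).length = n * u.length := by
  induction n with
  | zero => simp [pw]
  | succ n ih => simp [pw, ih]; ring

theorem conj_words {u x v : List α} (h : u ++ x = x ++ v) (hu : u ≠ []) :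
    ∃ p q k, u = p ++ q ∧ v = q ++ p ∧ x = pw (p ++ q) k ++ p := by
  induction hn : x.length using Nat.strong_induction_on generalizing x with
  | _ n ih =>
    rcases List.append_eq_append_iff.1 h with ⟨t, h1, h2⟩ | ⟨t, h1, h2⟩
    · -- `x = u ++ t`, `x = t ++ v`
      subst h1
      have h3 : u ++ t = t ++ v := h2
      have hlt : t.length < n := by
        have : 0 < u.length := List.length_pos_iff.2 hu
        rw [← hn, List.length_append]; omega
      obtain ⟨p, q, k, h4, h5, h6⟩ := ih _ hlt h3 rfl
      exact ⟨p, q, k + 1, h4, h5, by rw [h6, h4]; simp [pw]⟩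
    · -- `u = x ++ t`, `v = t ++ x`
      exact ⟨x, t, 0, h1, h2, by simp [pw]⟩

/-- The syntactic class of the word `r` with respect to the language `L`. -/
def synt (L : Set (List α)) (r : List α) : Set (List α × List α) := {p | p.1 ++ r ++ p.2 ∈ L}

/-- The right (Nerode) class of the word `r` with respect to the language `L`. -/
def nerode (L : Set (List α)) (v : List α) : Set (List α) := {x | v ++ x ∈ L}

theorem nerode_append {L : Set (List α)} {v v' : List α} (h : nerode L v = nerode L v')
    (x : List α) : nerode L (v ++ x) = nerode L (v' ++ x) := by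
  ext y
  have := Set.ext_iff.1 h (x ++ y)
  simpa [nerode] using this

theorem synt_append_right {L : Set (List α)} {r r' : List α} (h : synt L r = synt L r')
    (s : List α) : synt L (r ++ s) = synt L (r' ++ s) := by
  ext ⟨x, y⟩
  have := Set.ext_iff.1 h (x, s ++ y)
  simpa [synt] using this

theorem synt_append_left {L : Set (List α)} {r r' : List α} (h : synt L r = synt L r')
    (s : List α) : synt L (s ++ r) = synt L (s ++ r') := by
  ext ⟨x, y⟩
  have := Set.ext_iff.1 h (x ++ s, y)
  simpa [synt] using this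

theorem synt_append {L : Set (List α)} {r r' s s' : List α} (h : synt L r = synt L r')
    (h' : synt L s = synt L s') : synt L (r ++ s) = synt L (r' ++ s') :=
  (synt_append_right h s).trans (synt_append_left h' r')

theorem synt_pw {L : Set (List α)} {r r' : List α} (h : synt L r = synt L r') (n : ℕ) :
    synt L (pw r n) = synt L (pw r' n) := by
  induction n with
  | zero => rfl
  | succ n ih => exact synt_append h ih

theorem mem_iff_of_synt {L : Set (List α)} {r r' : List α} (h : synt L r = synt L r') :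
    r ∈ L ↔ r' ∈ L := by
  have := Set.ext_iff.1 h ([], [])
  simpa [synt] using this

theorem small_synt {L : Set (List α)} {N : ℕ} (h : Small (Set.range (nerode L)) N) :
    Small (Set.range (synt L)) (2 ^ (N * N)) := by
  refine (h.prod h).powerset.of_code
    (fun C E => ∃ r, C = synt L r ∧ E = {p | ∃ x, p = (nerode L x, nerode L (x ++ r))}) ?_ ?_
  · rintro _ ⟨r, rfl⟩
    refine ⟨{p | ∃ x, p = (nerode L x, nerode L (x ++ r))}, ?_, r, rfl, rfl⟩
    rintro _ ⟨x, rfl⟩
    exact ⟨⟨x, rfl⟩, ⟨x ++ r, rfl⟩⟩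
  · rintro _ - _ - E ⟨r, rfl, hE⟩ ⟨r', rfl, hE'⟩
    have key : ∀ x, nerode L (x ++ r) = nerode L (x ++ r') := by
      intro x
      have h1 : (nerode L x, nerode L (x ++ r)) ∈ E := by rw [hE]; exact ⟨x, rfl⟩
      rw [hE'] at h1
      obtain ⟨x', hx'⟩ := h1
      simp only [Prod.mk.injEq] at hx'
      rw [hx'.2]
      exact nerode_append hx'.1.symm r'
    ext ⟨x, y⟩
    have := Set.ext_iff.1 (key x) y
    simpa [synt, nerode] using this

/-- Reducing an exponent while preserving the syntactic class. -/
theorem exists_small_exp {L : Set (List α)} {K : ℕ} (hK : Small (Set.range (synt L)) K)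
    (ρ : List α) (k : ℕ) : ∃ k' < K, synt L (pw ρ k') = synt L (pw ρ k) := by
  induction k using Nat.strong_induction_on with
  | _ k ih =>
    by_cases hk : K ≤ k
    · obtain ⟨i, j, hij, hj, he⟩ := pigeon hK (fun i => synt L (pw ρ i)) hk
        (fun i _ => ⟨_, rfl⟩)
      have h1 : synt L (pw ρ (i + (k - j))) = synt L (pw ρ k) := by
        rw [pw_add]
        have : k = j + (k - j) := by omega
        conv_rhs => rw [this, pw_add]
        exact synt_append_right he _
      obtain ⟨k', h2, h3⟩ := ih (i + (k - j)) (by omega)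
      exact ⟨k', h2, h3.trans h1⟩
    · exact ⟨k, by omega, rfl⟩

end Pool.Agent.CConj
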