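import Pool.Agent.CConj.Short

/-!
Primitive recursiveness of normal forms of a finite monadic confluent system and of the bounds,
and the decision procedure for `c`-conjugacy.
-/

namespace Pool.Agent.CConj

open Pool.Agent.ConjMonadic

theorem mem_PSet {M : Type*} [Monoid M] {a g : M} :
    g ∈ PSet a ↔ (IsZ a → IsZ g) ∧ (¬ IsZ a → ∀ m, IsZ (m * (a * g)) → IsZ (m * a)) := by
  constructor
  · intro h
    refine ⟨fun ha => ?_, fun ha m hm => ?_⟩
    · have := (h a ha).1 rfl
      rw [this]; exact ha
    · have := (h _ hm).2 (fun h' => ha (h' ▸ hm)) m (mul_assoc _ _ _)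
      rw [this]; exact hm
  · rintro ⟨h1, h2⟩ z hz
    refine ⟨fun ha => ?_, fun ha m hm => ?_⟩
    · subst ha
      exact (h1 hz).eq hz
    · refine (h2 (fun h => ha (h.eq hz)) m ?_).eq hz
      rw [← mul_assoc, hm]; exact hz

section reduce

variable {k : ℕ}

/-- Head reduction of a reversed stack. -/
def hr : List (List (Fin k) × List (Fin k)) → List (Fin k) → List (Fin k)
  | [], s => s
  | r :: rs, s =>
    if s.take r.1.length = r.1.reverse then r.2.reverse ++ s.drop r.1.length else hr rs s

theorem primrec_hr (rs : List (List (Fin k) × List (Fin k))) : Primrec (hr rs) := by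
  induction rs with
  | nil => exact Primrec.id
  | cons r rs ih =>
    exact Primrec.ite
      (Primrec.eq.comp (Primrec.list_take.comp (Primrec.const _) Primrec.id) (Primrec.const _))
      (Primrec.list_append.comp (Primrec.const _)
        (Primrec.list_drop.comp (Primrec.const _) Primrec.id)) ih

theorem hr_cases (rs : List (List (Fin k) × List (Fin k))) (s : List (Fin k)) :
    (∃ r ∈ rs, ∃ t, s = r.1.reverse ++ t ∧ hr rs s = r.2.reverse ++ t) ∨
    (hr rs s = s ∧ ∀ r ∈ rs, ∀ t, s ≠ r.1.reverse ++ t) := by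
  induction rs with
  | nil => exact Or.inr ⟨rfl, by simp⟩
  | cons r rs ih =>
    by_cases h : s.take r.1.length = r.1.reverse
    · left
      refine ⟨r, by simp, s.drop r.1.length, ?_, by rw [hr, if_pos h]⟩
      rw [← h, List.take_append_drop]
    · have h' : hr (r :: rs) s = hr rs s := by rw [hr, if_neg h]
      rw [h']
      rcases ih with ⟨r', h1, t, h2, h3⟩ | ⟨h1, h2⟩
      · exact Or.inl ⟨r', by simp [h1], t, h2, h3⟩
      · refine Or.inr ⟨h1, ?_⟩
        intro r' hr' t
        rcases List.mem_cons.1 hr' with rfl | hr'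
        · intro hs
          apply h
          rw [hs]
          simp
        · exact h2 r' hr' t

/-- Push a letter on an irreducible (reversed) stack and reduce. -/
def push (rs : List (List (Fin k) × List (Fin k))) (s : List (Fin k)) (c : Fin k) :
    List (Fin k) := (hr rs)^[s.length + 1] (c :: s)

/-- The normal form of a word, computed with a stack. -/
def nfw (rs : List (List (Fin k) × List (Fin k))) (w : List (Fin k)) : List (Fin k) :=
  (w.foldl (push rs) []).reverse

theorem primrec_push (rs : List (List (Fin k) × List (Fin k))) :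
    Primrec fun p : List (Fin k) × Fin k => push rs p.1 p.2 :=
  Primrec.nat_iterate (Primrec.succ.comp (Primrec.list_length.comp Primrec.fst))
    (Primrec.list_cons.comp Primrec.snd Primrec.fst) ((primrec_hr rs).comp Primrec.snd).to₂

theorem primrec_nfw (rs : List (List (Fin k) × List (Fin k))) : Primrec (nfw rs) :=
  Primrec.list_reverse.comp (Primrec.list_foldl Primrec.id (Primrec.const [])
    ((primrec_push rs).comp Primrec.snd).to₂)

variable {S : Sys (Fin k)} {rs : List (List (Fin k) × List (Fin k))}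

theorem hr_step (hrs : ∀ r, r ∈ S.R ↔ r ∈ rs) {s : List (Fin k)} (hs : S.Irr s.tail.reverse) :
    (Step S.R s.reverse (hr rs s).reverse ∧ S.Irr (hr rs s).tail.reverse) ∨
    (hr rs s = s ∧ S.Irr s.reverse) := by
  rcases hr_cases rs s with ⟨r, h1, t, h2, h3⟩ | ⟨h1, h2⟩
  · left
    have hR := (hrs r).2 h1
    have hm := S.mon _ hR
    refine ⟨⟨t.reverse, [], r.1, r.2, hR, by rw [h2]; simp, by rw [h3]; simp⟩, ?_⟩
    have ht : S.Irr t.reverse := by
      rw [h2] at hs
      have : r.1.reverse ≠ [] := by
        intro h0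
        have := congrArg List.length h0
        simp only [List.length_reverse, List.length_nil] at this
        omega
      obtain ⟨c, q, hc⟩ := List.exists_cons_of_ne_nil this
      rw [hc] at hs
      simp only [List.cons_append, List.tail_cons, List.reverse_append] at hs
      exact hs.left
    rw [h3]
    rcases hy : r.2 with _ | ⟨c, _ | ⟨c', q⟩⟩
    · simp only [List.reverse_nil, List.nil_append]
      cases t with
      | nil => simpa using ht
      | cons a t =>
        simp only [List.reverse_cons] at ht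
        exact ht.left
    · simpa using ht
    · rw [hy] at hm
      simp only [List.length_cons] at hm
      omega
  · right
    refine ⟨h1, ?_⟩
    rw [Sys.irr_iff]
    intro u v x y hR hw
    rcases List.eq_nil_or_concat v with rfl | ⟨v', c, rfl⟩
    · refine h2 (x, y) ((hrs _).1 hR) u.reverse ?_
      have := congrArg List.reverse hw
      simpa using this
    · have h3 := congrArg List.reverse hw
      simp only [List.concat_eq_append, List.reverse_reverse, List.reverse_append,
        List.reverse_cons, List.reverse_nil, List.nil_append, List.singleton_append,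
        List.cons_append, List.append_assoc] at h3
      rw [h3] at hs
      simp only [List.tail_cons, List.reverse_append, List.reverse_reverse,
        List.append_assoc] at hs
      exact Sys.irr_iff.1 hs u v' x y hR (by simp)

theorem hr_iterate (hrs : ∀ r, r ∈ S.R ↔ r ∈ rs) (n : ℕ) {s : List (Fin k)}
    (hn : s.length ≤ n) (hs : S.Irr s.tail.reverse) :
    Steps S.R s.reverse ((hr rs)^[n] s).reverse ∧ S.Irr ((hr rs)^[n] s).reverse := by
  induction n generalizing s with
  | zero =>
    have : s = [] := List.length_eq_zero_iff.1 (by omega)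
    subst this
    exact ⟨Steps.refl _, Sys.irr_nil⟩
  | succ n ih =>
    rcases hr_step hrs hs with ⟨h1, h2⟩ | ⟨h1, h2⟩
    · have h3 := Sys.step_length h1
      simp only [List.length_reverse] at h3
      obtain ⟨h4, h5⟩ := ih (s := hr rs s) (by omega) h2
      rw [Function.iterate_succ_apply]
      exact ⟨(Steps.single h1).trans h4, h5⟩
    · rw [Function.iterate_fixed h1]
      exact ⟨Steps.refl _, h2⟩

theorem foldl_push (hrs : ∀ r, r ∈ S.R ↔ r ∈ rs) (w : List (Fin k)) {s : List (Fin k)}
    (hs : S.Irr s.reverse) :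
    Steps S.R (s.reverse ++ w) (w.foldl (push rs) s).reverse ∧
      S.Irr (w.foldl (push rs) s).reverse := by
  induction w generalizing s with
  | nil => simpa using ⟨Steps.refl _, hs⟩
  | cons c w ih =>
    obtain ⟨h1, h2⟩ := hr_iterate hrs (s.length + 1) (s := c :: s) (by simp) (by simpa using hs)
    obtain ⟨h3, h4⟩ := ih (s := push rs s c) h2
    refine ⟨?_, h4⟩
    have h5 := (h1.append_right w).trans h3
    simpa using h5

theorem nfw_eq (hrs : ∀ r, r ∈ S.R ↔ r ∈ rs) (w : List (Fin k)) :
    nfw rs w = Sys.nf (S.cl w) := by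
  obtain ⟨h1, h2⟩ := foldl_push hrs w (s := []) (by simpa using Sys.irr_nil)
  refine Sys.irr_unique h2 (Sys.irr_nf _) ?_
  rw [Sys.cl_nf]
  exact h1.cls_eq.symm

end reduce

section words

variable {k : ℕ}

/-- The list of all words of length at most `n`. -/
def wle (k : ℕ) : ℕ → List (List (Fin k))
  | 0 => [[]]
  | n + 1 => [] :: (wle k n).flatMap fun w => (List.finRange k).map fun c => c :: w

theorem mem_wle {n : ℕ} {w : List (Fin k)} : w ∈ wle k n ↔ w.length ≤ n := by
  induction n generalizing w with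
  | zero => simp [wle]
  | succ n ih =>
    cases w with
    | nil => simp [wle]
    | cons c w =>
      simp only [wle, List.mem_cons, reduceCtorEq, List.mem_flatMap, List.mem_map,
        List.mem_finRange, List.cons.injEq, true_and, false_or, List.length_cons,
        Nat.add_le_add_iff_right]
      constructor
      · rintro ⟨w', h1, c', -, rfl⟩
        exact ih.1 h1
      · intro h
        exact ⟨w, ih.2 h, c, rfl, rfl⟩

theorem primrec_wle (k : ℕ) : Primrec (wle k) := by
  have h : Primrec₂ fun (_ : ℕ) (l : List (List (Fin k))) =>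
      ([] : List (Fin k)) :: l.flatMap fun w => (List.finRange k).map fun c => c :: w := by
    refine (Primrec.list_cons.comp (Primrec.const []) (Primrec.list_flatMap Primrec.snd
      (Primrec.list_map (Primrec.const _)
        (Primrec.list_cons.comp Primrec.snd (Primrec.snd.comp Primrec.fst)).to₂).to₂)).to₂
  refine (Primrec.nat_rec₁ [[]] h).of_eq ?_
  intro n
  induction n with
  | zero => rfl
  | succ n ih => simp only [wle, ← ih]

theorem primrec_pow : Primrec₂ ((· ^ ·) : ℕ → ℕ → ℕ) := Primrec₂.unpaired'.1 Nat.Primrec.pow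

theorem primrec_bW (k : ℕ) : Primrec (Sys.bW (Fin k)) :=
  primrec_pow.comp (Primrec.const _) Primrec.id

variable (S : Sys (Fin k))

theorem primrec_bT : Primrec (Sys.bT S) :=
  Primrec.nat_mul.comp (Primrec.const _) (Primrec.succ.comp ((primrec_bW k).comp
    (Primrec.nat_add.comp (Primrec.succ.comp Primrec.id) (Primrec.const _))))

theorem primrec_bG : Primrec₂ (Sys.bG S) :=
  Primrec.nat_mul.comp ((primrec_bW k).comp (Primrec.nat_add.comp
    (Primrec.succ.comp Primrec.fst) (Primrec.const _))) ((primrec_bT S).comp Primrec.snd)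

theorem primrec_bN : Primrec (Sys.bN S) :=
  Primrec.succ.comp (Primrec.nat_mul.comp (Primrec.const _) (primrec_pow.comp (Primrec.const _)
    (Primrec.nat_mul.comp (Primrec.const _) (primrec_bT S))))

theorem primrec_bK : Primrec (Sys.bK S) :=
  primrec_pow.comp (Primrec.const _) (Primrec.nat_mul.comp (primrec_bN S) (primrec_bN S))

theorem primrec_bS : Primrec (Sys.bS S) :=
  Primrec.nat_mul.comp (Primrec.nat_mul.comp ((primrec_bW k).comp
    (Primrec.nat_add.comp (Primrec.succ.comp Primrec.id) (Primrec.const _))) (primrec_bK S))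
    ((primrec_bW k).comp
    (Primrec.nat_add.comp (Primrec.succ.comp Primrec.id) (Primrec.const _)))

theorem primrec_bH : Primrec (Sys.bH S) := by
  unfold Sys.bH
  refine Primrec.nat_add.comp (Primrec.nat_add.comp (Primrec.nat_mul.comp
    (Primrec.nat_add.comp (primrec_bK S) (Primrec.const 2))
    (Primrec.nat_add.comp (Primrec.nat_add.comp (Primrec.nat_mul.comp (Primrec.const 2)
      (primrec_bS S)) Primrec.id) (Primrec.const 1)))
    (Primrec.nat_mul.comp (Primrec.const 2) Primrec.id)) (Primrec.const 2)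

end words

section decide

variable {k : ℕ} (S : Sys (Fin k))

/-- The normal form of the zero, if there is one. -/
noncomputable def zw : Option (List (Fin k)) :=
  open Classical in
  if h : ∃ z : S.M, IsZ z then some (Sys.nf (Classical.choose h)) else none

theorem isZ_iff (m : S.M) : IsZ m ↔ zw S = some (Sys.nf m) := by
  unfold zw
  constructor
  · intro hm
    have hex : ∃ z : S.M, IsZ z := ⟨m, hm⟩
    rw [dif_pos hex, (Classical.choose_spec hex).eq hm]
  · intro h
    split_ifs at h with hex
    · simp only [Option.some.injEq] at h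
      rw [← Sys.nf_injective h]
      exact Classical.choose_spec hex

variable (rs : List (List (Fin k) × List (Fin k)))

/-- `[w]` is zero. -/
def zr (w : List (Fin k)) : Prop := zw S = some (nfw rs w)

theorem primrec_zr : PrimrecPred (zr S rs) :=
  Primrec.eq.comp (Primrec.const _) (Primrec.option_some.comp (primrec_nfw rs))

/-- Bounded test for `[g] ∈ P([u])`. -/
def PtD (p : List (Fin k) × List (Fin k)) : Prop :=
  (¬ zr S rs p.1 ∨ zr S rs p.2) ∧
    (zr S rs p.1 ∨ ∀ m ∈ wle k (Sys.bG S (p.1.length + p.2.length) p.1.length),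
      ¬ zr S rs (m ++ (p.1 ++ p.2)) ∨ zr S rs (m ++ p.1))

theorem primrec_PtD : PrimrecPred (PtD S rs) := by
  have h1 : PrimrecRel fun (m : List (Fin k)) (p : List (Fin k) × List (Fin k)) =>
      ¬ zr S rs (m ++ (p.1 ++ p.2)) ∨ zr S rs (m ++ p.1) := by
    refine PrimrecPred.primrecRel (p := fun q : List (Fin k) × (List (Fin k) × List (Fin k)) =>
      ¬ zr S rs (q.1 ++ (q.2.1 ++ q.2.2)) ∨ zr S rs (q.1 ++ q.2.1)) ?_
    refine PrimrecPred.or (PrimrecPred.not ((primrec_zr S rs).comp ?_))
      ((primrec_zr S rs).comp ?_)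
    · exact Primrec.list_append.comp Primrec.fst (Primrec.list_append.comp
        (Primrec.fst.comp Primrec.snd) (Primrec.snd.comp Primrec.snd))
    · exact Primrec.list_append.comp Primrec.fst (Primrec.fst.comp Primrec.snd)
  have h2 : PrimrecPred fun p : List (Fin k) × List (Fin k) =>
      ∀ m ∈ wle k (Sys.bG S (p.1.length + p.2.length) p.1.length),
        ¬ zr S rs (m ++ (p.1 ++ p.2)) ∨ zr S rs (m ++ p.1) := by
    refine PrimrecRel.comp h1.forall_mem_list ?_ Primrec.id
    refine (primrec_wle k).comp ((primrec_bG S).comp (Primrec.nat_add.comp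
      (Primrec.list_length.comp Primrec.fst) (Primrec.list_length.comp Primrec.snd))
      (Primrec.list_length.comp Primrec.fst))
  exact PrimrecPred.and
    (PrimrecPred.or (PrimrecPred.not ((primrec_zr S rs).comp Primrec.fst))
      ((primrec_zr S rs).comp Primrec.snd))
    (PrimrecPred.or ((primrec_zr S rs).comp Primrec.fst) h2)

/-- Bounded test for the existence of `g ∈ P([u])` with `[u] g = g [v]`. -/
def HalfD (p : List (Fin k) × List (Fin k)) : Prop :=
  ∃ g ∈ wle k (Sys.bH S (p.1.length + p.2.length)),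
    PtD S rs (p.1, g) ∧ nfw rs (p.1 ++ g) = nfw rs (g ++ p.2)

theorem primrec_HalfD : PrimrecPred (HalfD S rs) := by
  have h1 : PrimrecRel fun (g : List (Fin k)) (p : List (Fin k) × List (Fin k)) =>
      PtD S rs (p.1, g) ∧ nfw rs (p.1 ++ g) = nfw rs (g ++ p.2) := by
    refine PrimrecPred.primrecRel (p := fun q : List (Fin k) × (List (Fin k) × List (Fin k)) =>
      PtD S rs (q.2.1, q.1) ∧ nfw rs (q.2.1 ++ q.1) = nfw rs (q.1 ++ q.2.2)) ?_
    refine PrimrecPred.and ((primrec_PtD S rs).comp
      (Primrec.pair (Primrec.fst.comp Primrec.snd) Primrec.fst)) (Primrec.eq.comp ?_ ?_)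
    · exact (primrec_nfw rs).comp
        (Primrec.list_append.comp (Primrec.fst.comp Primrec.snd) Primrec.fst)
    · exact (primrec_nfw rs).comp
        (Primrec.list_append.comp Primrec.fst (Primrec.snd.comp Primrec.snd))
  have h2 : PrimrecPred fun p : List (Fin k) × List (Fin k) =>
      ∃ g ∈ wle k (Sys.bH S (p.1.length + p.2.length)),
        PtD S rs (p.1, g) ∧ nfw rs (p.1 ++ g) = nfw rs (g ++ p.2) := by
    refine PrimrecRel.comp h1.exists_mem_list ?_ Primrec.id
    exact (primrec_wle k).comp ((primrec_bH S).comp (Primrec.nat_add.comp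
      (Primrec.list_length.comp Primrec.fst) (Primrec.list_length.comp Primrec.snd)))
  exact h2

variable {S rs}

theorem zr_iff (hrs : ∀ r, r ∈ S.R ↔ r ∈ rs) (w : List (Fin k)) : zr S rs w ↔ IsZ (S.cl w) := by
  rw [isZ_iff, zr, nfw_eq hrs]

theorem PtD_iff (hrs : ∀ r, r ∈ S.R ↔ r ∈ rs) (u g : List (Fin k)) :
    PtD S rs (u, g) ↔ S.cl g ∈ PSet (S.cl u) := by
  rw [mem_PSet]
  unfold PtD
  simp only [zr_iff hrs]
  constructor
  · rintro ⟨h1, h2⟩
    refine ⟨fun hu => h1.resolve_left (fun h => h hu), fun hu m hm => ?_⟩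
    by_contra hma
    have h3 : Sys.len (S.cl u * S.cl g) ≤ u.length + g.length := by
      rw [← Sys.cl_append]
      refine (Sys.len_cl_le _).trans ?_
      simp
    obtain ⟨w, hw, hw1, hw2⟩ := Sys.exists_short_annihilator h3 (Sys.len_cl_le u) hm hma
    rcases h2.resolve_left hu w (mem_wle.2 hw.le) with h4 | h4
    · exact h4 (by rw [Sys.cl_append, Sys.cl_append]; exact hw1)
    · exact hw2 (by rw [← Sys.cl_append]; exact h4)
  · rintro ⟨h1, h2⟩
    refine ⟨?_, ?_⟩
    · by_cases hu : IsZ (S.cl u)
      · exact Or.inr (h1 hu)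
      · exact Or.inl hu
    · by_cases hu : IsZ (S.cl u)
      · exact Or.inl hu
      · refine Or.inr fun m _ => ?_
        by_cases hm : IsZ (S.cl (m ++ (u ++ g)))
        · exact Or.inr (h2 hu (S.cl m) hm)
        · exact Or.inl hm

theorem HalfD_iff (hrs : ∀ r, r ∈ S.R ↔ r ∈ rs) (u v : List (Fin k)) :
    HalfD S rs (u, v) ↔ ∃ g ∈ PSet (S.cl u), S.cl u * g = g * S.cl v := by
  constructor
  · rintro ⟨g, -, h1, h2⟩
    refine ⟨S.cl g, (PtD_iff hrs u g).1 h1, ?_⟩
    rw [nfw_eq hrs, nfw_eq hrs] at h2
    exact Sys.nf_injective h2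
  · rintro ⟨g, h1, h2⟩
    have hlu : Sys.len (S.cl u) ≤ u.length + v.length :=
      (Sys.len_cl_le u).trans (Nat.le_add_right _ _)
    have hlv : Sys.len (S.cl v) ≤ u.length + v.length :=
      (Sys.len_cl_le v).trans (Nat.le_add_left _ _)
    by_cases hu : IsZ (S.cl u)
    · refine ⟨u, mem_wle.2 ?_, (PtD_iff hrs u u).2 ?_, ?_⟩
      · simp only [Sys.bH]
        omega
      · rw [mem_PSet]
        exact ⟨fun _ => hu, fun h => absurd hu h⟩
      · rw [nfw_eq hrs, nfw_eq hrs]
        congr 1
        rw [Sys.cl_append, Sys.cl_append, (hu _).1, (hu _).1]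
    · rw [mem_PSet] at h1
      obtain ⟨w, hw, hw1, hw2⟩ := Sys.shorten hlu hlv ⟨h2, h1.2 hu⟩
      refine ⟨w, mem_wle.2 hw, (PtD_iff hrs u w).2 ?_, ?_⟩
      · rw [mem_PSet]
        exact ⟨fun h => absurd h hu, fun _ => hw2⟩
      · rw [nfw_eq hrs, nfw_eq hrs]
        congr 1

theorem primrec_cconj (hrs : ∀ r, r ∈ S.R ↔ r ∈ rs) :
    PrimrecPred fun p : List (Fin k) × List (Fin k) => CConj (S.cl p.1) (S.cl p.2) := by
  refine ((primrec_HalfD S rs).and ((primrec_HalfD S rs).comp
    (Primrec.pair Primrec.snd Primrec.fst))).of_eq ?_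
  rintro ⟨u, v⟩
  simp only
  rw [HalfD_iff hrs, HalfD_iff hrs]
  constructor
  · rintro ⟨⟨g, hg, h1⟩, ⟨h, hh, h2⟩⟩
    exact ⟨g, hg, h, hh, h1, h2⟩
  · rintro ⟨g, hg, h, hh, h1, h2⟩
    exact ⟨⟨g, hg, h1⟩, ⟨h, hh, h2⟩⟩

end decide

/-- Every finite monadic confluent system extends to a structure `Sys`. -/
theorem exists_sys {α : Type*} {R : Set (List α × List α)} (hfin : R.Finite) (hmon : Monadic R)
    (hconf : Confluent R) : ∃ S : Sys α, S.R = R := by
  obtain ⟨L₁, hL₁⟩ : ∃ L : ℕ, ∀ x y, (x, y) ∈ R → x.length ≤ L := by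
    obtain ⟨L, hL⟩ := (hfin.image (fun p => p.1.length)).bddAbove
    exact ⟨L, fun x y h => hL ⟨(x, y), h, rfl⟩⟩
  obtain ⟨L₂, hL₂⟩ : ∃ L : ℕ, ∀ w, Irred R w → IsZ (cls R w) → w.length < L := by
    by_cases hex : ∃ w, Irred R w ∧ IsZ (cls R w)
    · obtain ⟨w₀, h1, h2⟩ := hex
      refine ⟨w₀.length + 1, fun w h3 h4 => ?_⟩
      have h5 := steps_of_cls_eq hconf h3 (h2.eq h4)
      rw [h1.eq_of_steps h5]
      omega
    · push Not at hex
      exact ⟨0, fun w h3 h4 => absurd h4 (hex w h3)⟩
  exact ⟨⟨R, hmon, hconf, max L₁ L₂, fun x y h => (hL₁ x y h).trans (le_max_left _ _),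
    fun w h3 h4 => (hL₂ w h3 h4).trans_le (le_max_right _ _)⟩, rfl⟩

/-- The `c`-conjugacy problem of a monoid given by a finite monadic confluent system is
primitive recursive. -/
theorem primrecPred_cconj {k : ℕ} {R : Set (List (Fin k) × List (Fin k))} (hfin : R.Finite)
    (hmon : Monadic R) (hconf : Confluent R) :
    PrimrecPred fun p : List (Fin k) × List (Fin k) => CConj (cls R p.1) (cls R p.2) := by
  obtain ⟨S, rfl⟩ := exists_sys hfin hmon hconf
  exact primrec_cconj (S := S) (rs := hfin.toFinset.toList) (by simp)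

end Pool.Agent.CConj
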