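import Mathlib

/-!
`c`-conjugacy in a monoid.
-/

namespace Pool.Agent.CConj

variable {M : Type*} [Monoid M]

/-- `z` is a (two-sided) zero of the monoid `M`. -/
def IsZ (z : M) : Prop := ∀ x : M, z * x = z ∧ x * z = z

/-- The set `P(a)`: if `M` has a zero `z` then `P(z) = {z}`, and `P(a)`, for `a ≠ z`, consists of
all `g` such that `m a g = z` implies `m a = z` for all `m`; if `M` has no zero then `P(a) = M`. -/
def PSet (a : M) : Set M :=
  {g | ∀ z : M, IsZ z → (a = z → g = z) ∧ (a ≠ z → ∀ m : M, m * a * g = z → m * a = z)}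

/-- `c`-conjugacy: `a g = g b` and `b h = h a` for some `g ∈ P(a)` and `h ∈ P(b)`. -/
def CConj (a b : M) : Prop :=
  ∃ g ∈ PSet a, ∃ h ∈ PSet b, a * g = g * b ∧ b * h = h * a

end Pool.Agent.CConj
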