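import Pool.Agent.ConjMonadic.Basic
import Pool.Agent.CConj.Def

/-!
Normal forms of finite monadic confluent rewriting systems: the split lemma for products of
irreducible words and the growth lemmas.
-/

namespace Pool.Agent.CConj

open Pool.Agent.ConjMonadic

theorem IsZ.eq {M : Type*} [Monoid M] {z w : M} (hz : IsZ z) (hw : IsZ w) : z = w := by
  rw [← (hz w).1, (hw z).2]

theorem IsZ.mul_right {M : Type*} [Monoid M] {z : M} (hz : IsZ z) (x : M) : IsZ (z * x) := by
  rw [(hz x).1]; exact hz

theorem IsZ.mul_left {M : Type*} [Monoid M] {z : M} (hz : IsZ z) (x : M) : IsZ (x * z) := by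
  rw [(hz x).2]; exact hz

variable {α : Type*}

/-- A monadic confluent system together with a bound `L` on the lengths of its left-hand sides
and of the normal form of its zero, if there is one. -/
structure Sys (α : Type*) where
  R : Set (List α × List α)
  mon : Monadic R
  conf : Confluent R
  L : ℕ
  hL : ∀ x y, (x, y) ∈ R → x.length ≤ L
  hZ : ∀ w, Irred R w → IsZ (cls R w) → w.length < L

namespace Sys

variable (S : Sys α)

/-- The presented monoid. -/
abbrev M : Type _ := Mon S.R

/-- The class of a word. -/
abbrev cl (w : List α) : S.M := cls S.R w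

/-- Irreducible words. -/
abbrev Irr (w : List α) : Prop := Irred S.R w

variable {S}

theorem cl_append (u v : List α) : S.cl (u ++ v) = S.cl u * S.cl v := rfl

theorem cl_nil : S.cl [] = 1 := rfl

theorem irr_iff {w : List α} :
    S.Irr w ↔ ∀ u v x y, (x, y) ∈ S.R → w ≠ u ++ x ++ v := by
  constructor
  · intro h u v x y hR hw
    exact h _ ⟨u, v, x, y, hR, hw, rfl⟩
  · rintro h w' ⟨u, v, x, y, hR, hw, -⟩
    exact h u v x y hR hw

theorem Irr.of_factor {u v w : List α} (h : S.Irr (u ++ v ++ w)) : S.Irr v := by
  rw [irr_iff] at h ⊢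
  rintro p q x y hR rfl
  exact h (u ++ p) (q ++ w) x y hR (by simp)

theorem Irr.left {u v : List α} (h : S.Irr (u ++ v)) : S.Irr u :=
  Irr.of_factor (u := []) (v := u) (w := v) (by simpa using h)

theorem Irr.right {u v : List α} (h : S.Irr (u ++ v)) : S.Irr v :=
  Irr.of_factor (u := u) (v := v) (w := []) (by simpa using h)

theorem irr_nil : S.Irr ([] : List α) := by
  rw [irr_iff]
  intro u v x y hR h
  have h1 := S.mon _ hR
  have h2 := congrArg List.length h
  simp only [List.length_nil, List.length_append] at h2
  simp only at h1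
  omega

/-- Gluing irreducible words along a long overlap. -/
theorem irr_glue {u v w : List α} (h₁ : S.Irr (u ++ v)) (h₂ : S.Irr (v ++ w))
    (hv : S.L ≤ v.length) : S.Irr (u ++ v ++ w) := by
  rw [irr_iff]
  intro p q x y hR h
  have hx := S.hL x y hR
  by_cases hp : u.length ≤ p.length
  · -- the occurrence lies in `v ++ w`
    have h3 : p.take u.length = u := by
      have := congrArg (List.take u.length) h
      rw [List.append_assoc u, List.take_left, List.append_assoc p,
        List.take_append_of_le_length hp] at this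
      exact this.symm
    have h4 : v ++ w = p.drop u.length ++ x ++ q := by
      have := congrArg (List.drop u.length) h
      rw [List.append_assoc u, List.drop_left, List.append_assoc p,
        List.drop_append_of_le_length hp] at this
      simpa using this
    exact irr_iff.1 h₂ _ _ x y hR h4
  · -- the occurrence lies in `u ++ v`
    push Not at hp
    have hl := congrArg List.length h
    simp only [List.length_append] at hl
    have h5 : (p ++ x).length ≤ (u ++ v).length := by
      simp only [List.length_append]; omega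
    have h6 : u ++ v = p ++ x ++ ((u ++ v).drop (p ++ x).length) := by
      have := congrArg (List.take (p ++ x).length) h
      rw [List.take_append_of_le_length h5, List.take_left] at this
      conv_lhs => rw [← List.take_append_drop (p ++ x).length (u ++ v), this]
    exact irr_iff.1 h₁ _ _ x y hR h6

theorem step_length {w w' : List α} (h : Step S.R w w') : w'.length < w.length := by
  obtain ⟨u, v, x, y, hR, rfl, rfl⟩ := h
  have := (S.mon _ hR).2
  simp only [List.length_append] at this ⊢
  omega

theorem steps_length {w w' : List α} (h : Steps S.R w w') : w'.length ≤ w.length := by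
  induction h with
  | refl => exact le_rfl
  | tail _ h ih => exact (step_length h).le.trans ih

theorem exists_irr (w : List α) : ∃ w', Steps S.R w w' ∧ S.Irr w' := by
  induction hn : w.length using Nat.strong_induction_on generalizing w with
  | _ n ih =>
    by_cases hw : S.Irr w
    · exact ⟨w, Steps.refl _, hw⟩
    · unfold Irr Irred at hw
      push Not at hw
      obtain ⟨w', h⟩ := hw
      obtain ⟨w'', h1, h2⟩ := ih w'.length (hn ▸ step_length h) w' rfl
      exact ⟨w'', (Steps.single h).trans h1, h2⟩

theorem irr_unique {u v : List α} (hu : S.Irr u) (hv : S.Irr v) (h : S.cl u = S.cl v) :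
    u = v := by
  have := steps_of_cls_eq S.conf hv h
  exact (hu.eq_of_steps this).symm

theorem exists_nf (m : S.M) : ∃ w, S.Irr w ∧ S.cl w = m := by
  obtain ⟨w, rfl⟩ := cls_surj m
  obtain ⟨w', h1, h2⟩ := exists_irr (S := S) w
  exact ⟨w', h2, h1.cls_eq.symm⟩

/-- The normal form of an element. -/
noncomputable def nf (m : S.M) : List α := Classical.choose (exists_nf m)

theorem irr_nf (m : S.M) : S.Irr (nf m) := (Classical.choose_spec (exists_nf m)).1

theorem cl_nf (m : S.M) : S.cl (nf m) = m := (Classical.choose_spec (exists_nf m)).2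

theorem nf_cl {w : List α} (h : S.Irr w) : nf (S.cl w) = w :=
  irr_unique (irr_nf _) h (cl_nf _)

theorem nf_injective {m m' : S.M} (h : nf m = nf m') : m = m' := by
  rw [← cl_nf m, ← cl_nf m', h]

theorem steps_nf (w : List α) : Steps S.R w (nf (S.cl w)) :=
  steps_of_cls_eq S.conf (irr_nf _) (cl_nf _).symm

/-- The length of an element: the length of its normal form. -/
noncomputable def len (m : S.M) : ℕ := (nf m).length

theorem len_cl {w : List α} (h : S.Irr w) : len (S.cl w) = w.length := by
  rw [len, nf_cl h]

theorem len_cl_le (w : List α) : len (S.cl w) ≤ w.length := steps_length (steps_nf w)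

theorem len_mul_le (x y : S.M) : len (x * y) ≤ len x + len y := by
  have : x * y = S.cl (nf x ++ nf y) := by
    rw [cl_append, cl_nf, cl_nf]
  rw [this]
  refine (len_cl_le _).trans ?_
  simp [len]

theorem len_lt_of_isZ {m : S.M} (h : IsZ m) : len m < S.L :=
  S.hZ _ (irr_nf m) (by rw [← cl_nf m] at h; exact h)

theorem L_pos_of_isZ {m : S.M} (h : IsZ m) : 0 < S.L := (Nat.zero_le _).trans_lt (len_lt_of_isZ h)

theorem not_isZ_of_irr {w : List α} (hw : S.Irr w) (h : S.L ≤ w.length) : ¬ IsZ (S.cl w) := by
  intro hz
  have := len_lt_of_isZ hz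
  rw [len_cl hw] at this
  omega

/-- The split lemma. -/
theorem split {u w c₀ : List α} (hu : S.Irr u) (hw : S.Irr w) (hc : c₀.length ≤ 1) :
    ∃ u₁ u₂ w₂ w₁ c : List α, u = u₁ ++ u₂ ∧ w = w₂ ++ w₁ ∧ c.length ≤ 1 ∧
      S.cl (u₂ ++ c₀ ++ w₂) = S.cl c ∧ S.Irr (u₁ ++ c ++ w₁) := by
  induction hn : (u ++ c₀ ++ w).length using Nat.strong_induction_on generalizing u w c₀ with
  | _ n ih =>
    by_cases hI : S.Irr (u ++ c₀ ++ w)
    · exact ⟨u, [], [], w, c₀, by simp, by simp, hc, by simp, hI⟩
    · rw [irr_iff] at hI
      push Not at hI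
      obtain ⟨p, q, x, y, hR, h⟩ := hI
      have hl := congrArg List.length h
      simp only [List.length_append] at hl
      have hxy := S.mon _ hR
      simp only at hxy
      have hp : p.length ≤ u.length := by
        by_contra hp
        push Not at hp
        have h1 : (u ++ c₀).length ≤ p.length := by
          simp only [List.length_append]; omega
        have h4 : w = p.drop (u ++ c₀).length ++ x ++ q := by
          have := congrArg (List.drop (u ++ c₀).length) h
          rw [List.drop_left, List.append_assoc p, List.drop_append_of_le_length h1] at this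
          simpa using this
        exact irr_iff.1 hw _ _ x y hR h4
      have hq : q.length ≤ w.length := by
        by_contra hq
        push Not at hq
        have h5 : (p ++ x).length ≤ u.length := by
          simp only [List.length_append]; omega
        have h6 : u = p ++ x ++ (u.drop (p ++ x).length) := by
          have := congrArg (List.take (p ++ x).length) h
          rw [List.append_assoc u, List.take_append_of_le_length h5, List.take_left] at this
          conv_lhs => rw [← List.take_append_drop (p ++ x).length u, this]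
        exact irr_iff.1 hu _ _ x y hR h6
      -- decompose
      obtain ⟨x₁, hx₁⟩ : ∃ x₁, u = p ++ x₁ := by
        refine ⟨u.drop p.length, ?_⟩
        have := congrArg (List.take p.length) h
        rw [List.append_assoc u, List.take_append_of_le_length hp, List.append_assoc p,
          List.take_left] at this
        conv_lhs => rw [← List.take_append_drop p.length u, this]
      subst hx₁
      obtain ⟨x₂, hx₂⟩ : ∃ x₂, w = x₂ ++ q := by
        refine ⟨w.take (w.length - q.length), ?_⟩
        have h7 := congrArg (List.drop (p ++ x).length) h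
        rw [List.drop_left] at h7
        have h8 : (p ++ x).length = (p ++ x₁ ++ c₀).length + (w.length - q.length) := by
          simp only [List.length_append] at hl ⊢; omega
        rw [h8, ← List.drop_drop, List.drop_left] at h7
        conv_lhs => rw [← List.take_append_drop (w.length - q.length) w, h7]
      subst hx₂
      have hx : x = x₁ ++ c₀ ++ x₂ := by
        have h9 : p ++ x ++ q = p ++ (x₁ ++ c₀ ++ x₂) ++ q := by
          rw [← h]; simp
        exact (List.append_right_inj _).1 ((List.append_left_inj _).1 h9)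
      have hlt : (p ++ y ++ q).length < n := by
        rw [← hn, h]
        simp only [List.length_append]
        omega
      obtain ⟨u₁, u₂, w₂, w₁, c, h1, h2, h3, h4, h5⟩ :=
        ih _ hlt (u := p) (w := q) (c₀ := y) hu.left hw.right hxy.1 rfl
      refine ⟨u₁, u₂ ++ x₁, x₂ ++ w₂, w₁, c, by rw [h1]; simp, by rw [h2]; simp, h3, ?_, h5⟩
      have h10 : Step S.R (u₂ ++ x₁ ++ c₀ ++ (x₂ ++ w₂)) (u₂ ++ y ++ w₂) :=
        ⟨u₂, w₂, x, y, hR, by rw [hx]; simp, rfl⟩
      exact h10.cls_eq.trans h4

/-- The split lemma for a product of two irreducible words. -/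
theorem mul_split {u w : List α} (hu : S.Irr u) (hw : S.Irr w) :
    ∃ u₁ u₂ w₂ w₁ c : List α, u = u₁ ++ u₂ ∧ w = w₂ ++ w₁ ∧ c.length ≤ 1 ∧
      S.cl (u₂ ++ w₂) = S.cl c ∧ S.Irr (u₁ ++ c ++ w₁) := by
  obtain ⟨u₁, u₂, w₂, w₁, c, h1, h2, h3, h4, h5⟩ := split (S := S) (c₀ := []) hu hw (by simp)
  exact ⟨u₁, u₂, w₂, w₁, c, h1, h2, h3, by simpa using h4, h5⟩

/-- Left multiplication of an irreducible word by an element. -/
theorem split_left (p : S.M) {w : List α} (hw : S.Irr w) :
    ∃ p' w₂ w₁ : List α, w = w₂ ++ w₁ ∧ p * S.cl w₂ = S.cl p' ∧ p'.length ≤ len p + 1 ∧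
      S.Irr (p' ++ w₁) := by
  obtain ⟨u₁, u₂, w₂, w₁, c, h1, h2, h3, h4, h5⟩ := mul_split (S := S) (irr_nf p) hw
  refine ⟨u₁ ++ c, w₂, w₁, h2, ?_, ?_, h5⟩
  · conv_lhs => rw [← cl_nf p, h1]
    rw [cl_append, mul_assoc, ← cl_append u₂, h4, cl_append]
  · have : len p = u₁.length + u₂.length := by rw [len, h1]; simp
    simp only [List.length_append]
    omega

/-- Right multiplication of an irreducible word by an element. -/
theorem split_right (q : S.M) {w : List α} (hw : S.Irr w) :
    ∃ q' w₁ w₂ : List α, w = w₁ ++ w₂ ∧ S.cl w₂ * q = S.cl q' ∧ q'.length ≤ len q + 1 ∧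
      S.Irr (w₁ ++ q') := by
  obtain ⟨w₁, w₂, u₂, u₁, c, h1, h2, h3, h4, h5⟩ := mul_split (S := S) hw (irr_nf q)
  refine ⟨c ++ u₁, w₁, w₂, h1, ?_, ?_, by simpa using h5⟩
  · conv_lhs => rw [← cl_nf q, h2]
    rw [cl_append, ← mul_assoc, ← cl_append w₂, h4, cl_append]
  · have : len q = u₂.length + u₁.length := by rw [len, h2]; simp
    simp only [List.length_append]
    omega

/-- Growth lemma, right multiplication. -/
theorem growth_right (p : S.M) {y₁ y₂ : List α} (h : S.Irr (y₁ ++ y₂)) :
    len (p * S.cl y₁) ≤ max (len p + 1 + S.L) (len (p * S.cl (y₁ ++ y₂))) := by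
  obtain ⟨p', w₂, w₁, h1, h2, h3, h4⟩ := split_left p h.left
  subst h1
  have h5 : p * S.cl (w₂ ++ w₁) = S.cl (p' ++ w₁) := by
    rw [cl_append, ← mul_assoc, h2, cl_append]
  rw [h5, len_cl h4]
  by_cases hw : S.L ≤ w₁.length
  · refine le_max_of_le_right ?_
    have h6 : S.Irr (p' ++ w₁ ++ y₂) := by
      refine irr_glue h4 ?_ hw
      have : w₂ ++ w₁ ++ y₂ = w₂ ++ (w₁ ++ y₂) := by simp
      rw [this] at h
      exact h.right
    rw [cl_append, ← mul_assoc, h5, ← cl_append, len_cl h6]
    simp
  · refine le_max_of_le_left ?_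
    simp only [List.length_append]
    omega

/-- Growth lemma, left multiplication. -/
theorem growth_left (q : S.M) {y₁ y₂ : List α} (h : S.Irr (y₁ ++ y₂)) :
    len (S.cl y₂ * q) ≤ max (len q + 1 + S.L) (len (S.cl (y₁ ++ y₂) * q)) := by
  obtain ⟨q', w₁, w₂, h1, h2, h3, h4⟩ := split_right q h.right
  subst h1
  have h5 : S.cl (w₁ ++ w₂) * q = S.cl (w₁ ++ q') := by
    rw [cl_append, mul_assoc, h2, cl_append]
  rw [h5, len_cl h4]
  by_cases hw : S.L ≤ w₁.length
  · refine le_max_of_le_right ?_
    have h6 : S.Irr (y₁ ++ w₁ ++ q') := by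
      refine irr_glue ?_ h4 hw
      have : y₁ ++ (w₁ ++ w₂) = y₁ ++ w₁ ++ w₂ := by simp
      rw [this] at h
      exact h.left
    rw [cl_append, mul_assoc, h5, ← cl_append, ← List.append_assoc, len_cl h6]
    simp
  · refine le_max_of_le_left ?_
    simp only [List.length_append]
    omega

end Sys

end Pool.Agent.CConj
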