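import Pool.Agent.CConj.Types

/-!
The shortening theorem: if `a g = g b` with `g ∈ P(a)`, then there is such a `g` of length
bounded in terms of `a` and `b`.
-/

namespace Pool.Agent.CConj

open Pool.Agent.ConjMonadic

namespace Sys

variable {α : Type*} {S : Sys α}

/-- `g` solves the one-sided problem for `a` and `b`, in the case where `a` is not zero. -/
def Good (a b g : S.M) : Prop :=
  a * g = g * b ∧ ∀ m : S.M, IsZ (m * (a * g)) → IsZ (m * a)

theorem good_of_mem {a b : S.M} {g : S.M} {v : List α} (h₁ : a * g = S.cl v)
    (h₂ : g * b = S.cl v) (hv : v ∈ lang a) : Good a b g :=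
  ⟨h₁.trans h₂.symm, by rw [h₁]; exact hv.2⟩

variable [Fintype α]

/-- Bound for the number of states in the cutting arguments. -/
def bS (S : Sys α) (n : ℕ) : ℕ := bW α (n + 1 + S.L) * bK S n * bW α (n + 1 + S.L)

/-- Bound for the length of a shortest solution. -/
def bH (S : Sys α) (n : ℕ) : ℕ := (bK S n + 2) * (2 * bS S n + n + 1) + 2 * n + 2

theorem small_state {a : S.M} {n : ℕ} (ha : len a ≤ n) :
    Small (({x : S.M | len x ≤ n + 1 + S.L} ×ˢ Set.range (synt (lang a))) ×ˢ
      {x : S.M | len x ≤ n + 1 + S.L}) (bS S n) :=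
  ((small_len _).prod (small_synt_lang ha)).prod (small_len _)

/-- The cutting lemma used three times: replace the factor `y` of `p y s` by a short word. -/
theorem cut_factor {a b : S.M} {n : ℕ} (ha : len a ≤ n) (hb : len b ≤ n)
    {p y s : List α} (h₁ : S.Irr (p ++ y)) (h₂ : S.Irr (y ++ s))
    (h₃ : len (a * S.cl (p ++ y)) ≤ n + 1 + S.L) (h₄ : len (S.cl (y ++ s) * b) ≤ n + 1 + S.L) :
    ∃ y', y'.length < bS S n ∧ a * S.cl (p ++ y') = a * S.cl (p ++ y) ∧
      S.cl (y' ++ s) * b = S.cl (y ++ s) * b ∧ synt (lang a) y' = synt (lang a) y := by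
  obtain ⟨y', h5, h6, h7⟩ := cut_word (small_state ha)
    (fun r => (a * S.cl (p ++ r), synt (lang a) r)) (fun t => S.cl (t ++ s) * b)
    (by
      intro r r' s' h
      simp only [Prod.mk.injEq] at h ⊢
      refine ⟨?_, synt_append_right h.2 _⟩
      rw [← List.append_assoc, cl_append, ← mul_assoc, h.1, mul_assoc, ← cl_append,
        List.append_assoc])
    (by
      intro t t' s' h
      rw [List.append_assoc, cl_append, mul_assoc, h, ← mul_assoc, ← cl_append,
        List.append_assoc]) (y := y)
    (by
      rintro r t rfl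
      refine ⟨⟨?_, ⟨r, rfl⟩⟩, ?_⟩
      · have h8 : S.Irr (p ++ r ++ t) := by rw [List.append_assoc]; exact h₁
        have := growth_right a h8
        rw [List.append_assoc p r t] at this
        simp only [Set.mem_setOf_eq]
        rw [le_max_iff] at this
        omega
      · have h8 : S.Irr (r ++ (t ++ s)) := by rw [← List.append_assoc]; exact h₂
        have := growth_left b h8
        rw [← List.append_assoc r t s] at this
        simp only [Set.mem_setOf_eq]
        rw [le_max_iff] at this
        omega)
  simp only [Prod.mk.injEq] at h5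
  exact ⟨y', h7, h5.1, h6, h5.2⟩

omit [Fintype α] in
theorem synt_ctx {a : S.M} {u v w u' : List α} (h : synt (lang a) v = synt (lang a) w)
    (hu : u ++ v ++ u' ∈ lang a) : u ++ w ++ u' ∈ lang a :=
  (mem_iff_of_synt (synt_append_right (synt_append_left h u) u')).1 hu

theorem shorten {a b g : S.M} {n : ℕ} (ha : len a ≤ n) (hb : len b ≤ n) (hg : Good a b g) :
    ∃ w : List α, w.length ≤ bH S n ∧ Good a b (S.cl w) := by
  obtain ⟨hab, hP⟩ := hg
  have hgI := irr_nf (S := S) g
  obtain ⟨a', g₁, g₂, hg12, ha', hla', hIa⟩ := split_left a hgI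
  obtain ⟨b', g₃, g₄, hg34, hb', hlb', hIb⟩ := split_right b hgI
  have hag : a * g = S.cl (a' ++ g₂) := by
    conv_lhs => rw [← cl_nf g, hg12]
    rw [cl_append, ← mul_assoc, ha', ← cl_append]
  have hgb : g * b = S.cl (g₃ ++ b') := by
    conv_lhs => rw [← cl_nf g, hg34]
    rw [cl_append, mul_assoc, hb', ← cl_append]
  have hv : a' ++ g₂ = g₃ ++ b' := irr_unique hIa hIb (by rw [← hag, ← hgb, hab])
  have hgg : g₁ ++ g₂ = g₃ ++ g₄ := hg12.symm.trans hg34
  have hI12 : S.Irr (g₁ ++ g₂) := by rw [← hg12]; exact hgI
  have hI34 : S.Irr (g₃ ++ g₄) := by rw [← hg34]; exact hgI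
  have hvL : a' ++ g₂ ∈ lang a := ⟨hIa, by rw [← hag]; exact hP⟩
  have hK1 : 1 ≤ bK S n := Nat.one_le_two_pow
  have hla'' : len (S.cl a') ≤ a'.length := len_cl_le _
  have hlb'' : len (S.cl b') ≤ b'.length := len_cl_le _
  clear hg12 hg34 hgI
  by_cases hcase : g₃.length ≤ a'.length
  · -- Case 2: `a' = g₃ ++ x'`, `b' = x' ++ g₂`
    obtain ⟨x', hx1, hx2⟩ : ∃ x', a' = g₃ ++ x' ∧ b' = x' ++ g₂ := by
      rcases List.append_eq_append_iff.1 hv with ⟨t, h1, h2⟩ | ⟨t, h1, h2⟩
      · -- `g₃ = a' ++ t`, `g₂ = t ++ b'`
        have : t = [] := by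
          have := congrArg List.length h1
          simp only [List.length_append] at this
          exact List.length_eq_zero_iff.1 (by omega)
        subst this
        exact ⟨[], by simpa using h1.symm, by simpa using h2.symm⟩
      · exact ⟨t, h1, h2⟩
    have hl1 : g₃.length ≤ n + 1 := by omega
    have hl2 : g₂.length ≤ n + 1 := by
      have := congrArg List.length hx2
      simp only [List.length_append] at this
      omega
    rcases List.append_eq_append_iff.1 hgg with ⟨t, h1, h2⟩ | ⟨y, h1, h2⟩
    · -- `g₃ = g₁ ++ t`: `g` is short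
      refine ⟨g₁ ++ g₂, ?_, ?_⟩
      · have := congrArg List.length h1
        simp only [List.length_append] at this ⊢
        unfold bH
        omega
      · refine good_of_mem (v := a' ++ g₂) ?_ ?_ hvL
        · rw [cl_append, ← mul_assoc, ha', ← cl_append]
        · rw [hgg, cl_append, mul_assoc, hb', ← cl_append, ← hv]
    · -- `g₁ = g₃ ++ y`, `g₄ = y ++ g₂`
      subst h1 h2
      obtain ⟨y', h3, h4, h5, -⟩ := cut_factor (p := g₃) (y := y) (s := g₂) ha hb
        hI12.left hI34.right (by rw [ha']; omega) (by rw [hb']; omega)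
      refine ⟨g₃ ++ y' ++ g₂, ?_, good_of_mem (v := a' ++ g₂) ?_ ?_ hvL⟩
      · simp only [List.length_append]
        unfold bH
        nlinarith
      · rw [cl_append, ← mul_assoc, h4, ha', ← cl_append]
      · rw [List.append_assoc, cl_append, mul_assoc, h5, hb', ← cl_append, ← hv]
  · -- Case 1: `g₃ = a' ++ x`, `g₂ = x ++ b'`
    push Not at hcase
    obtain ⟨x, hx1, hx2⟩ : ∃ x, g₃ = a' ++ x ∧ g₂ = x ++ b' := by
      rcases List.append_eq_append_iff.1 hv with ⟨t, h1, h2⟩ | ⟨t, h1, h2⟩
      · exact ⟨t, h1, h2⟩
      · have := congrArg List.length h1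
        simp only [List.length_append] at this
        omega
    subst hx1 hx2
    clear hv hcase
    -- `g₁ ++ x ++ b' = a' ++ x ++ g₄`
    have hgg' : g₁ ++ (x ++ b') = a' ++ (x ++ g₄) := by rw [hgg, List.append_assoc]
    rcases List.append_eq_append_iff.1 hgg' with ⟨ρ, h1, h2⟩ | ⟨μ, h1, h2⟩
    · -- Case 1a: `a' = g₁ ++ ρ`, `x ++ b' = ρ ++ (x ++ g₄)`
      obtain ⟨σ, h3, h4⟩ : ∃ σ, b' = σ ++ g₄ ∧ ρ ++ x = x ++ σ := by
        have h5 : x ++ b' = (ρ ++ x) ++ g₄ := by rw [h2, List.append_assoc]
        rcases List.append_eq_append_iff.1 h5 with ⟨t, h6, h7⟩ | ⟨t, h6, h7⟩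
        · exact ⟨t, h7, h6⟩
        · have : t = [] := by
            have := congrArg List.length h6
            simp only [List.length_append] at this
            exact List.length_eq_zero_iff.1 (by omega)
          subst this
          exact ⟨[], by simpa using h7.symm, by simpa using h6.symm⟩
      have hlg1 : g₁.length + ρ.length ≤ n + 1 := by
        have := congrArg List.length h1
        simp only [List.length_append] at this
        omega
      have hlg4 : σ.length + g₄.length ≤ n + 1 := by
        have := congrArg List.length h3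
        simp only [List.length_append] at this
        omega
      subst h1 h3
      by_cases hρ : ρ = []
      · subst hρ
        have hσ : σ = [] := by
          have := congrArg List.length h4
          simp only [List.length_append, List.length_nil] at this
          exact List.length_eq_zero_iff.1 (by omega)
        subst hσ
        simp only [List.append_nil, List.nil_append] at *
        -- cut `x` preserving only the syntactic class
        obtain ⟨x', h5, -, h6⟩ := cut_word
          (T := (Set.range (synt (lang a))) ×ˢ (Set.univ : Set Unit)) (N := bK S n * 1)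
          ((small_synt_lang ha).prod (by simpa using small_univ (σ := Unit)))
          (fun r => synt (lang a) r) (fun _ => ())
          (fun r r' s h => synt_append_right h s) (fun _ _ _ _ => rfl) (y := x)
          (fun r t _ => ⟨⟨r, rfl⟩, trivial⟩)
        have h7 : g₁ ++ x' ++ g₄ ∈ lang a := by
          refine synt_ctx h5.symm ?_
          rw [List.append_assoc]; exact hvL
        refine ⟨g₁ ++ x' ++ g₄, ?_, good_of_mem ?_ ?_ h7⟩
        · simp only [List.length_append]
          unfold bH
          nlinarith
        · rw [List.append_assoc, cl_append, ← mul_assoc, ha', ← cl_append]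
        · rw [cl_append, mul_assoc, hb', ← cl_append]
      · obtain ⟨ρ₁, ρ₂, k, h5, h6, h7⟩ := conj_words h4 hρ
        obtain ⟨k', hk', h8⟩ := exists_small_exp (small_synt_lang ha) ρ k
        -- `v = g₁ ρ ρ^k ρ₁ σ g₄ = g₁ ρ ρ^k ρ₁ b'`
        have h9 : (g₁ ++ ρ) ++ pw ρ k' ++ (ρ₁ ++ (σ ++ g₄)) ∈ lang a := by
          refine synt_ctx h8.symm ?_
          have : g₁ ++ ρ ++ pw ρ k ++ (ρ₁ ++ (σ ++ g₄)) = g₁ ++ ρ ++ (x ++ (σ ++ g₄)) := by
            rw [h7, h5]; simp
          rw [this]; exact hvL
        have hρρ : ρ ++ ρ₁ = ρ₁ ++ σ := by rw [h5, h6]; simp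
        refine ⟨g₁ ++ pw ρ (k' + 1) ++ ρ₁ ++ g₄, ?_, good_of_mem ?_ ?_ h9⟩
        · have h10 : ρ₁.length ≤ ρ.length := by
            rw [h5, List.length_append]; omega
          simp only [List.length_append, length_pw]
          have h11 : (k' + 1) * ρ.length ≤ bK S n * (n + 1) :=
            Nat.mul_le_mul (by omega) (by omega)
          unfold bH
          nlinarith
        · have : g₁ ++ pw ρ (k' + 1) ++ ρ₁ ++ g₄ = g₁ ++ (pw ρ (k' + 1) ++ (ρ₁ ++ g₄)) := by simp
          rw [this, cl_append, ← mul_assoc, ha', ← cl_append]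
          congr 1
          rw [pw_succ']
          simp only [List.append_assoc]
          rw [← List.append_assoc ρ ρ₁, hρρ]
          simp
        · rw [cl_append, mul_assoc, hb', ← cl_append]
          congr 1
          simp [pw]
    · -- Case 1b: `g₁ = a' ++ μ`, `x ++ g₄ = μ ++ (x ++ b')`
      obtain ⟨ν, h3, h4⟩ : ∃ ν, g₄ = ν ++ b' ∧ μ ++ x = x ++ ν := by
        have h5 : x ++ g₄ = (μ ++ x) ++ b' := by rw [h2, List.append_assoc]
        rcases List.append_eq_append_iff.1 h5 with ⟨t, h6, h7⟩ | ⟨t, h6, h7⟩
        · exact ⟨t, h7, h6⟩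
        · have : t = [] := by
            have := congrArg List.length h6
            simp only [List.length_append] at this
            exact List.length_eq_zero_iff.1 (by omega)
          subst this
          exact ⟨[], by simpa using h7.symm, by simpa using h6.symm⟩
      subst h1 h3
      by_cases hμ : μ = []
      · subst hμ
        have hν : ν = [] := by
          have := congrArg List.length h4
          simp only [List.length_append, List.length_nil] at this
          exact List.length_eq_zero_iff.1 (by omega)
        subst hν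
        simp only [List.append_nil, List.nil_append] at *
        obtain ⟨x', h5, -, h6⟩ := cut_word
          (T := (Set.range (synt (lang a))) ×ˢ (Set.univ : Set Unit)) (N := bK S n * 1)
          ((small_synt_lang ha).prod (by simpa using small_univ (σ := Unit)))
          (fun r => synt (lang a) r) (fun _ => ())
          (fun r r' s h => synt_append_right h s) (fun _ _ _ _ => rfl) (y := x)
          (fun r t _ => ⟨⟨r, rfl⟩, trivial⟩)
        have h7 : a' ++ x' ++ b' ∈ lang a := by
          refine synt_ctx h5.symm ?_
          rw [List.append_assoc]; exact hvL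
        refine ⟨a' ++ x' ++ b', ?_, good_of_mem ?_ ?_ h7⟩
        · simp only [List.length_append]
          unfold bH
          nlinarith
        · rw [List.append_assoc, cl_append, ← mul_assoc, ha', ← cl_append]
        · rw [cl_append, mul_assoc, hb', ← cl_append]
      · obtain ⟨π₁, π₂, k, h5, h6, h7⟩ := conj_words h4 hμ
        subst h5 h6
        -- first reduce the exponent
        obtain ⟨k', hk', h8⟩ := exists_small_exp (small_synt_lang ha) (π₁ ++ π₂) k
        have h9 : a' ++ pw (π₁ ++ π₂) k' ++ (π₁ ++ b') ∈ lang a := by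
          refine synt_ctx h8.symm ?_
          have : a' ++ pw (π₁ ++ π₂) k ++ (π₁ ++ b') = a' ++ (x ++ b') := by
            rw [h7]; simp
          rw [this]; exact hvL
        -- irreducibility facts
        have hI1 : S.Irr (a' ++ π₁ ++ π₂) := by
          rw [List.append_assoc]; exact hI12.left
        have hI4 : S.Irr (π₂ ++ π₁ ++ b') := hI34.right
        have ha2 : a * S.cl (a' ++ π₁ ++ π₂) = S.cl a' := by
          rw [List.append_assoc]; exact ha'
        have hb2 : S.cl (π₂ ++ π₁ ++ b') * b = S.cl b' := hb'
        -- cut `π₁`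
        have hI5 : S.Irr (π₁ ++ b') := by
          rw [List.append_assoc] at hI4; exact hI4.right
        obtain ⟨π₁', h10, h11, h12, h13⟩ := cut_factor (p := a') (y := π₁) (s := b') ha hb
          hI1.left hI5
          (by
            have := growth_right a hI1
            rw [ha2, le_max_iff] at this
            omega)
          (by
            have := growth_left b (y₁ := π₂) (y₂ := π₁ ++ b') (by
              rw [← List.append_assoc]; exact hI4)
            rw [← List.append_assoc, hb2, le_max_iff] at this
            omega)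
        -- cut `π₂`
        obtain ⟨π₂', h14, h15, h16, h17⟩ := cut_factor (p := a' ++ π₁) (y := π₂)
          (s := π₁ ++ b') ha hb hI1 (by rw [← List.append_assoc]; exact hI4)
          (by rw [ha2]; omega) (by rw [← List.append_assoc, hb2]; omega)
        have hA : a * S.cl (a' ++ (π₁' ++ π₂')) = S.cl a' := by
          rw [← List.append_assoc, cl_append, ← mul_assoc, h11, mul_assoc, ← cl_append,
            h15, ha2]
        have hB : S.cl (π₂' ++ (π₁' ++ b')) * b = S.cl b' := by
          rw [cl_append, mul_assoc, h12, ← mul_assoc, ← cl_append, h16, ← List.append_assoc,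
            hb2]
        have h18 : a' ++ pw (π₁' ++ π₂') k' ++ (π₁' ++ b') ∈ lang a := by
          have h19 : synt (lang a) (a' ++ pw (π₁ ++ π₂) k' ++ (π₁ ++ b')) =
              synt (lang a) (a' ++ pw (π₁' ++ π₂') k' ++ (π₁' ++ b')) := by
            refine synt_append (synt_append_left (synt_pw (synt_append ?_ ?_) _) _)
              (synt_append_right ?_ _)
            · exact h13.symm
            · exact h17.symm
            · exact h13.symm
          exact (mem_iff_of_synt h19).1 h9
        refine ⟨a' ++ pw (π₁' ++ π₂') (k' + 1) ++ (π₁' ++ b'), ?_, good_of_mem ?_ ?_ h18⟩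
        · simp only [List.length_append, length_pw]
          have h20 : (k' + 1) * (π₁'.length + π₂'.length) ≤ bK S n * (2 * bS S n) :=
            Nat.mul_le_mul (by omega) (by omega)
          unfold bH
          nlinarith
        · have : a' ++ pw (π₁' ++ π₂') (k' + 1) ++ (π₁' ++ b') =
              (a' ++ (π₁' ++ π₂')) ++ (pw (π₁' ++ π₂') k' ++ (π₁' ++ b')) := by
            simp [pw]
          rw [this, cl_append, ← mul_assoc, hA, ← cl_append]
          simp
        · have : a' ++ pw (π₁' ++ π₂') (k' + 1) ++ (π₁' ++ b') =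
              (a' ++ pw (π₁' ++ π₂') k' ++ π₁') ++ (π₂' ++ (π₁' ++ b')) := by
            rw [pw_succ']; simp
          rw [this, cl_append, mul_assoc, hB, ← cl_append]
          simp

end Sys

end Pool.Agent.CConj
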