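import Pool.Agent.CConj.Irr
import Pool.Agent.CConj.Cut

/-!
Finite index statements: the left congruence of the non-annihilators of an element, the right
congruence of the language `lang a` of irreducible words `v` all of whose left annihilators are
left annihilators of `a`, and the bound on witnesses for `v ∉ lang a`.
-/

namespace Pool.Agent.CConj

open Pool.Agent.ConjMonadic

namespace Sys

variable {α : Type*} {S : Sys α}

theorem irr_append_of_take {m m' u : List α} (hm' : S.Irr m')
    (h : m.take S.L = m'.take S.L) (hI : S.Irr (u ++ m)) : S.Irr (u ++ m') := by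
  by_cases hl : S.L ≤ m'.length
  · have h1 : S.Irr (u ++ m'.take S.L) := by
      rw [← h]
      have : u ++ m = u ++ m.take S.L ++ m.drop S.L := by
        rw [List.append_assoc, List.take_append_drop]
      rw [this] at hI
      exact hI.left
    have h2 : S.Irr (m'.take S.L ++ m'.drop S.L) := by rwa [List.take_append_drop]
    have h3 := irr_glue h1 h2 (by rw [List.length_take, min_eq_left hl])
    rwa [List.append_assoc, List.take_append_drop] at h3
  · push Not at hl
    have h1 : m'.take S.L = m' := List.take_of_length_le hl.le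
    have h2 : m = m' := by
      rw [h1] at h
      have h3 : (m.take S.L).length < S.L := by rw [h]; exact hl
      rw [List.length_take] at h3
      rw [List.take_of_length_le (by omega)] at h
      exact h
    rw [← h2]; exact hI

/-- The last `S.L` letters of a word. -/
def suf (S : Sys α) (v : List α) : List α := v.drop (v.length - S.L)

theorem suf_length_le (v : List α) : (suf S v).length ≤ S.L := by
  rw [suf, List.length_drop]; omega

theorem take_append_suf (v : List α) : v.take (v.length - S.L) ++ suf S v = v :=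
  List.take_append_drop _ _

theorem irr_append_of_suf {v v' x : List α} (hv' : S.Irr v')
    (h : suf S v = suf S v') (hI : S.Irr (v ++ x)) : S.Irr (v' ++ x) := by
  by_cases hl : S.L ≤ v'.length
  · have h1 : S.Irr (suf S v' ++ x) := by
      rw [← h]
      rw [← take_append_suf (S := S) v, List.append_assoc] at hI
      exact hI.right
    have h2 : S.Irr (v'.take (v'.length - S.L) ++ suf S v') := by rwa [take_append_suf]
    have h3 := irr_glue h2 h1 (by rw [suf, List.length_drop]; omega)
    rwa [take_append_suf] at h3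
  · push Not at hl
    have h1 : suf S v' = v' := by
      rw [suf, Nat.sub_eq_zero_of_le hl.le, List.drop_zero]
    have h2 : v = v' := by
      rw [h1] at h
      have h3 : (suf S v).length < S.L := by rw [h]; exact hl
      rw [suf, List.length_drop] at h3
      rw [suf, show v.length - S.L = 0 by omega, List.drop_zero] at h
      exact h
    rw [← h2]; exact hI

/-- The type of a word `m` with respect to left extensions of `m` that do not annihilate `a`. -/
noncomputable def ty₁ (a : S.M) (m : List α) : List α × Option S.M :=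
  open Classical in
  (m.take S.L, if len (S.cl m * a) ≤ len a + 1 + S.L then some (S.cl m * a) else none)

theorem ty₁_congr {a : S.M} {m m' : List α} (h : ty₁ a m = ty₁ a m') (hm' : S.Irr m')
    {u : List α} (h₁ : S.Irr (u ++ m)) (h₂ : ¬ IsZ (S.cl (u ++ m) * a)) :
    S.Irr (u ++ m') ∧ ¬ IsZ (S.cl (u ++ m') * a) := by
  simp only [ty₁, Prod.mk.injEq] at h
  obtain ⟨h3, h4⟩ := h
  have h5 := irr_append_of_take hm' h3 h₁
  refine ⟨h5, ?_⟩
  by_cases hb : len (S.cl m' * a) ≤ len a + 1 + S.L
  · rw [if_pos hb] at h4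
    by_cases hb' : len (S.cl m * a) ≤ len a + 1 + S.L
    · rw [if_pos hb', Option.some.injEq] at h4
      rw [cl_append, mul_assoc, ← h4, ← mul_assoc, ← cl_append]
      exact h₂
    · rw [if_neg hb'] at h4
      exact absurd h4 (by simp)
  · intro hz
    have h6 := len_lt_of_isZ hz
    have h7 := growth_left a h5
    rw [le_max_iff] at h7
    push Not at hb
    omega

section bounds

variable [Fintype α]

/-- Bound for the number of words of length at most `n`. -/
def bW (α : Type*) [Fintype α] (n : ℕ) : ℕ := (Fintype.card α + 1) ^ n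

theorem small_len (n : ℕ) : Small {x : S.M | len x ≤ n} (bW α n) :=
  (small_words (α := α) n).of_map nf (fun _ hx => hx) (fun _ _ _ _ h => nf_injective h)

theorem bW_mono {m n : ℕ} (h : m ≤ n) : bW α m ≤ bW α n :=
  Nat.pow_le_pow_right (by omega) h

/-- Bound for the number of values of `ty₁ a`, where `len a ≤ n`. -/
def bT (S : Sys α) (n : ℕ) : ℕ := bW α S.L * (bW α (n + 1 + S.L) + 1)

theorem small_ty₁ {a : S.M} {n : ℕ} (ha : len a ≤ n) :
    Small {t : List α × Option S.M | t.1.length ≤ S.L ∧
      ∀ x ∈ t.2, len x ≤ len a + 1 + S.L} (bT S n) := by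
  have h1 : Small {x : S.M | len x ≤ len a + 1 + S.L} (bW α (n + 1 + S.L)) :=
    (small_len _).mono subset_rfl (bW_mono (by omega))
  refine ((small_words (α := α) S.L).prod h1.option).mono ?_ le_rfl
  rintro ⟨w, o⟩ ⟨h2, h3⟩
  exact ⟨h2, h3⟩

theorem ty₁_mem (a : S.M) (m : List α) : ty₁ a m ∈ {t : List α × Option S.M |
    t.1.length ≤ S.L ∧ ∀ x ∈ t.2, len x ≤ len a + 1 + S.L} := by
  refine ⟨by simp [ty₁], ?_⟩
  intro x hx
  simp only [ty₁] at hx
  split_ifs at hx with h
  · simp only [Option.mem_def, Option.some.injEq] at hx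
    rw [← hx]; exact h
  · simp at hx

/-- Bound for the shortest `m` with `m v = 0` and `m a ≠ 0`, where `len v ≤ n'`, `len a ≤ n`. -/
def bG (S : Sys α) (n' n : ℕ) : ℕ := bW α (n' + 1 + S.L) * bT S n

theorem exists_short_annihilator {v a : S.M} {n' n : ℕ} (hv : len v ≤ n') (ha : len a ≤ n)
    {m : S.M} (h₁ : IsZ (m * v)) (h₂ : ¬ IsZ (m * a)) :
    ∃ w : List α, w.length < bG S n' n ∧ IsZ (S.cl w * v) ∧ ¬ IsZ (S.cl w * a) := by
  have hT : Small ({x : S.M | len x ≤ len v + 1 + S.L} ×ˢ
      {t : List α × Option S.M | t.1.length ≤ S.L ∧ ∀ x ∈ t.2, len x ≤ len a + 1 + S.L})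
      (bG S n' n) :=
    ((small_len _).mono subset_rfl (bW_mono (by omega))).prod (small_ty₁ ha)
  have key : ∀ w : List α, (S.Irr w ∧ IsZ (S.cl w * v) ∧ ¬ IsZ (S.cl w * a)) →
      bG S n' n ≤ w.length → ∃ w', (S.Irr w' ∧ IsZ (S.cl w' * v) ∧ ¬ IsZ (S.cl w' * a)) ∧
        w'.length < w.length := by
    rintro w ⟨h3, h4, h5⟩ hN
    obtain ⟨p, q, r, rfl, hq, he⟩ := exists_cut hT
      (fun _ s => (S.cl s * v, ty₁ a s)) hN (by
        rintro s t rfl
        refine ⟨?_, ty₁_mem a t⟩
        have h6 := growth_left v h3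
        have h7 := len_lt_of_isZ h4
        rw [le_max_iff] at h6
        simp only [Set.mem_setOf_eq]
        omega)
    simp only [Prod.mk.injEq] at he
    obtain ⟨he1, he2⟩ := he
    rw [List.append_assoc] at h3 h4 h5
    obtain ⟨h6, h7⟩ := ty₁_congr he2 h3.right.right h3 h5
    refine ⟨p ++ r, ⟨h6, ?_, h7⟩, ?_⟩
    · rw [cl_append, mul_assoc, ← he1, ← mul_assoc, ← cl_append]
      exact h4
    · have : 0 < q.length := List.length_pos_iff.2 hq
      simp only [List.length_append]
      omega
  obtain ⟨w, ⟨-, h3, h4⟩, h5⟩ := descent _ _ key (w := nf m)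
    ⟨irr_nf m, by rw [cl_nf]; exact h₁, by rw [cl_nf]; exact h₂⟩
  exact ⟨w, h5, h3, h4⟩

end bounds

/-- The irreducible words `v` all of whose left annihilators annihilate `a`. -/
def lang (a : S.M) : Set (List α) :=
  {v | S.Irr v ∧ ∀ m : S.M, IsZ (m * S.cl v) → IsZ (m * a)}

/-- The second component of the type of `v`. -/
def tyE (a : S.M) (v : List α) : Set (List α × (List α × Option S.M)) :=
  {p | p.1.length ≤ S.L ∧ ∃ m, S.Irr m ∧ ty₁ a m = p.2 ∧ S.cl m * S.cl v = S.cl p.1}

theorem lang_congr {a : S.M} {v v' : List α} (hv : S.Irr v) (hv' : S.Irr v')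
    (h₁ : suf S v = suf S v') (h₂ : tyE a v = tyE a v') {x : List α}
    (hx : v ++ x ∈ lang a) : v' ++ x ∈ lang a := by
  obtain ⟨h3, h4⟩ := hx
  have h5 := irr_append_of_suf hv' h₁ h3
  refine ⟨h5, ?_⟩
  intro m hm
  by_contra hma
  obtain ⟨m₁, m₂, v₂, v₁, c, h6, h7, h8, h9, h10⟩ := mul_split (S := S) (irr_nf m) hv'
  have hm' : m = S.cl m₁ * S.cl m₂ := by rw [← cl_append, ← h6, cl_nf]
  by_cases hl : S.L ≤ v₁.length
  · -- the product is not zero
    have h11 : S.Irr (m₁ ++ c ++ v₁ ++ x) := by
      refine irr_glue h10 ?_ hl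
      rw [h7, List.append_assoc] at h5
      exact h5.right
    have h12 : S.cl (m₁ ++ c ++ v₁ ++ x) = m * S.cl (v' ++ x) := by
      rw [hm', h7]
      simp only [cl_append] at h9 ⊢
      rw [← h9]
      simp only [mul_assoc]
    rw [← h12] at hm
    exact not_isZ_of_irr h11 (by simp only [List.length_append]; omega) hm
  · push Not at hl
    have h11 : S.cl m₂ * S.cl v' = S.cl (c ++ v₁) := by
      rw [h7]
      simp only [cl_append] at h9 ⊢
      rw [← h9]
      simp only [mul_assoc]
    have hm₂ : S.Irr m₂ := by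
      have := irr_nf (S := S) m
      rw [h6] at this
      exact this.right
    have h12 : (c ++ v₁, ty₁ a m₂) ∈ tyE a v' := by
      refine ⟨by simp only [List.length_append]; omega, m₂, hm₂, rfl, h11⟩
    rw [← h₂] at h12
    obtain ⟨-, m₂', h13, h14, h15⟩ := h12
    simp only at h14 h15
    have hI : S.Irr (m₁ ++ m₂) := by rw [← h6]; exact irr_nf m
    have hn : ¬ IsZ (S.cl (m₁ ++ m₂) * a) := by
      rw [cl_append, ← hm']; exact hma
    obtain ⟨-, h16⟩ := ty₁_congr h14.symm h13 hI hn
    refine h16 (h4 _ ?_)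
    have h17 : S.cl (m₁ ++ m₂') * S.cl (v ++ x) = m * S.cl (v' ++ x) := by
      rw [hm', cl_append, cl_append v, cl_append v']
      calc S.cl m₁ * S.cl m₂' * (S.cl v * S.cl x)
          = S.cl m₁ * (S.cl m₂' * S.cl v) * S.cl x := by simp only [mul_assoc]
        _ = S.cl m₁ * (S.cl m₂ * S.cl v') * S.cl x := by rw [h15, h11]
        _ = _ := by simp only [mul_assoc]
    rw [h17]; exact hm

theorem nerode_congr {a : S.M} {v v' : List α} (hv : S.Irr v) (hv' : S.Irr v')
    (h₁ : suf S v = suf S v') (h₂ : tyE a v = tyE a v') :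
    nerode (lang a) v = nerode (lang a) v' := by
  ext x
  exact ⟨fun h => lang_congr hv hv' h₁ h₂ h, fun h => lang_congr hv' hv h₁.symm h₂.symm h⟩

theorem nerode_of_not_irr {a : S.M} {v : List α} (hv : ¬ S.Irr v) :
    nerode (lang a) v = ∅ := by
  ext x
  simp only [nerode, Set.mem_setOf_eq, Set.mem_empty_iff_false, iff_false]
  intro h
  exact hv h.1.left

section bounds

variable [Fintype α]

/-- Bound for the index of the Nerode congruence of `lang a`, where `len a ≤ n`. -/
def bN (S : Sys α) (n : ℕ) : ℕ := bW α S.L * 2 ^ (bW α S.L * bT S n) + 1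

theorem small_nerode {a : S.M} {n : ℕ} (ha : len a ≤ n) :
    Small (Set.range (nerode (lang a))) (bN S n) := by
  have h1 := ((small_words (α := α) S.L).prod (small_ty₁ ha)).powerset
  have h2 := ((small_words (α := α) S.L).prod h1).option
  refine h2.of_code (fun C o => ∃ v, C = nerode (lang a) v ∧
    ((S.Irr v ∧ o = some (suf S v, tyE a v)) ∨ (¬ S.Irr v ∧ o = none))) ?_ ?_
  · rintro _ ⟨v, rfl⟩
    by_cases hv : S.Irr v
    · refine ⟨some (suf S v, tyE a v), ?_, v, rfl, Or.inl ⟨hv, rfl⟩⟩
      intro x hx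
      simp only [Option.mem_def, Option.some.injEq] at hx
      rw [← hx]
      refine ⟨suf_length_le v, ?_⟩
      rintro ⟨w, t⟩ ⟨h3, m, -, h4, -⟩
      refine ⟨h3, ?_⟩
      simp only at h4
      rw [← h4]
      exact ty₁_mem a m
    · exact ⟨none, by simp, v, rfl, Or.inr ⟨hv, rfl⟩⟩
  · rintro _ - _ - o ⟨v, rfl, hv⟩ ⟨v', rfl, hv'⟩
    rcases hv with ⟨hv, ho⟩ | ⟨hv, ho⟩ <;> rcases hv' with ⟨hv', ho'⟩ | ⟨hv', ho'⟩
    · rw [ho] at ho'
      simp only [Option.some.injEq, Prod.mk.injEq] at ho'
      exact nerode_congr hv hv' ho'.1 ho'.2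
    · rw [ho] at ho'; exact absurd ho' (by simp)
    · rw [ho] at ho'; exact absurd ho' (by simp)
    · rw [nerode_of_not_irr hv, nerode_of_not_irr hv']

/-- Bound for the index of the syntactic congruence of `lang a`, where `len a ≤ n`. -/
def bK (S : Sys α) (n : ℕ) : ℕ := 2 ^ (bN S n * bN S n)

theorem small_synt_lang {a : S.M} {n : ℕ} (ha : len a ≤ n) :
    Small (Set.range (synt (lang a))) (bK S n) := small_synt (small_nerode ha)

end bounds

end Sys

end Pool.Agent.CConj
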